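import Pool.Agent.Helper786_Ell.Fin
import Pool.Agent.Helper786_Rig.ExL
import Pool.Agent.Y158.GR.Gen

/-!
# Sections for the curves `y ^ ℓ = e ^ ℓ (1 - P(x) ^ ℓ)` which are given at `ℓ` by a local point
-/

set_option autoImplicit false
set_option linter.all false

open Polynomial FF Pool.Agent.Y157.PS Pool.Agent.Y158.GR Pool.Agent.TH954 IsDedekindDomain
  NumberField

namespace Pool.Agent.Helper786_Fpb

open Pool.Agent.Helper786_Rig Pool.Agent.Helper786_Ell
open Pool.Agent.Y158.KL (lam Kl KLem)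

section poly

theorem fer_natDegree {E : Type} [Field E] (ℓ : ℕ) : (1 - X ^ ℓ : E[X]).natDegree = ℓ := by
  have h : (1 - X ^ ℓ : E[X]) = -(X ^ ℓ - C 1) := by rw [C_1]; ring
  rw [h, natDegree_neg, natDegree_X_pow_sub_C]

theorem fer_sep {E : Type} [Field E] {ℓ : ℕ} (h : (ℓ : E) ≠ 0) : (1 - X ^ ℓ : E[X]).Separable := by
  have h2 : (X ^ ℓ - C 1 : E[X]).Separable := separable_X_pow_sub_C 1 h one_ne_zero
  refine h2.of_dvd ⟨-1, ?_⟩
  rw [C_1]
  ring

end poly

section fin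

variable {K : Type} [Field K] [NumberField K] {ℓ : ℕ}
  [hp : Fact ℓ.Prime] [hK : IsCyclotomicExtension {ℓ} ℚ K] {ζ : K} (hζ : IsPrimitiveRoot ζ ℓ)
  {F Ω : Type} [Field F] [Field Ω] [Algebra K F] [Algebra F Ω] [Algebra K Ω]
  [IsScalarTower K F Ω] [IsAlgClosed Ω] [Algebra.IsAlgebraic F Ω]
  {C : Type} [Field C] [Algebra (Kl hζ) C] [Algebra K C] [IsScalarTower K (Kl hζ) C]
  [IsAlgClosure (Kl hζ) C]

include hK hζ in
/-- the point is above a point of the Fermat curve `u ^ ℓ + v ^ ℓ = 1` with `u = 0`, `v = 0` or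
`u = ∞` -/
theorem ferGen (hodd : Odd ℓ) (hcop : (classNumber K).Coprime ℓ) (hKL : KLem ℓ K)
    (f : K[X]) (hs : f.Separable) (hdvd : ℓ ∣ f.natDegree) (h3 : 3 ≤ f.natDegree) (d : K)
    (hd : d ≠ 0) (x y : F) (hx : Transcendental K x) (hxy : algebraMap K F d * y ^ ℓ = aeval x f)
    (hF : IntermediateField.adjoin K {x, y} = (⊤ : IntermediateField K F))
    (P : K[X]) (hP : P.natDegree ≠ 0) (Y : F) (hY : aeval x P ^ ℓ + Y ^ ℓ = 1)
    (N : IntermediateField F Ω) (hN : geomPro ℓ K F Ω ≤ N)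
    (s : GalSection K F N (algebraicClosure K Ω)) (p : Plc K N C) (hpv : s.GivenBy (Kl hζ) p) :
    p.val (algebraMap F N (aeval x P)) 0 ∨ p.val (algebraMap F N Y) 0 ∨
      p.val (algebraMap F N (aeval x P))⁻¹ 0 := by
  have hℓ := hp.out
  have hℓ3 : 3 ≤ ℓ := by
    have h1 := hℓ.two_le
    have h2 : ℓ ≠ 2 := by
      rintro rfl
      exact absurd hodd (by decide)
    omega
  obtain ⟨X₁, hX₁⟩ : ∃ X₁ : F, X₁ = aeval x P := ⟨_, rfl⟩
  rw [← hX₁] at hY ⊢
  have hX₁t : Transcendental K X₁ := by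
    rw [hX₁]
    refine hx.aeval P hP ?_
    rw [mem_nonZeroDivisors_iff_ne_zero]
    intro h
    apply hP
    rw [leadingCoeff_eq_zero.1 h, natDegree_zero]
  have hFx := alg_of_eqn hℓ.pos f d hd x y hxy hF
  have hxalg : ∀ F₀ : IntermediateField K F, X₁ ∈ F₀ → IsAlgebraic F₀ x := by
    intro F₀ hXm
    refine ⟨P.map (algebraMap K F₀) - Polynomial.C ⟨X₁, hXm⟩, ?_, ?_⟩
    · intro h
      apply hP
      have h1 := congrArg natDegree h
      rwa [natDegree_sub_C, natDegree_map, natDegree_zero] at h1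
    · rw [map_sub, aeval_map_algebraMap, aeval_C, ← hX₁]
      exact sub_self _
  have hFX₁ : Algebra.IsAlgebraic (IntermediateField.adjoin K {X₁}) F :=
    alg_sub' hFx _ (hxalg _ (IntermediateField.mem_adjoin_simple_self K X₁))
  obtain ⟨F₀, hF₀⟩ : ∃ F₀ : IntermediateField K F,
    F₀ = IntermediateField.adjoin K {X₁ ^ 1, Y ^ 1} := ⟨_, rfl⟩
  have hXm : X₁ ∈ F₀ := by
    rw [hF₀, pow_one, pow_one]; exact IntermediateField.subset_adjoin K _ (by simp)
  have hYm : Y ∈ F₀ := by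
    rw [hF₀, pow_one, pow_one]; exact IntermediateField.subset_adjoin K _ (by simp)
  haveI hFF : Algebra.IsAlgebraic F₀ F := alg_sub' hFx F₀ (hxalg F₀ hXm)
  haveI hFΩ : Algebra.IsAlgebraic F₀ Ω := Algebra.IsAlgebraic.trans F₀ F Ω
  have htop : IntermediateField.adjoin K {(⟨X₁, hXm⟩ : F₀), ⟨Y, hYm⟩} =
      (⊤ : IntermediateField K F₀) := by
    apply IntermediateField.map_injective F₀.val
    rw [IntermediateField.adjoin_map, Set.image_pair, ← AlgHom.fieldRange_eq_map,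
      IntermediateField.fieldRange_val]
    have hF₀' : F₀ = IntermediateField.adjoin K {X₁, Y} := by rw [hF₀, pow_one, pow_one]
    exact hF₀'.symm
  have hx0 : Transcendental K (⟨X₁, hXm⟩ : F₀) := by
    rw [← transcendental_algebraMap_iff (R := K) (A := F) (algebraMap F₀ F).injective]
    exact hX₁t
  have hxy0 : (⟨X₁, hXm⟩ : F₀) ^ ℓ + (⟨Y, hYm⟩ : F₀) ^ ℓ = 1 := Subtype.ext hY
  have heq : algebraMap K F₀ 1 * (⟨Y, hYm⟩ : F₀) ^ ℓ =
      aeval (⟨X₁, hXm⟩ : F₀) (1 - X ^ ℓ : K[X]) := by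
    rw [map_one, one_mul, map_sub, map_pow, aeval_X, map_one]
    linear_combination hxy0
  haveI : IsAlgClosure F₀ Ω := ⟨inferInstance, inferInstance⟩
  have hmono := mono_geo (Ω := Ω) (ℓ := ℓ) F₀ (1 - X ^ ℓ : K[X])
    (fer_sep (by exact_mod_cast hℓ.ne_zero))
    (by rw [fer_natDegree]) (by rw [fer_natDegree]; exact hℓ3) 1 one_ne_zero
    (⟨X₁, hXm⟩ : F₀) ⟨Y, hYm⟩ hx0 heq htop f hs hdvd h3 d hd x y hx hxy hF
  have hN₀ : ∀ z ∈ geomPro ℓ K (IntermediateField.adjoin K {X₁ ^ 1, Y ^ 1}) Ω, z ∈ N := by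
    rw [← hF₀]
    exact fun z hz => hN (hmono z hz)
  exact (genMain (C := C) hζ hodd hcop hKL one_ne_zero X₁ Y hX₁t hFX₁
    (by rw [mul_one]; exact hY) N hN₀ s p hpv).1

include hK hζ in
/-- **sections given by a local point at `ℓ`** -/
theorem ferFin (hodd : Odd ℓ) (hcop : (classNumber K).Coprime ℓ) (hKL : KLem ℓ K)
    {P : K[X]} (hP : P.natDegree ≠ 0)
    (hroot : ∀ w : Kl hζ, aeval w P = 0 → ∃ b : K, algebraMap K (Kl hζ) b = w)
    {e : K} (he : e ≠ 0) (g : (𝓞 K)[X])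
    (hg : g.map (algebraMap (𝓞 K) K) = Polynomial.C (e ^ ℓ) * (1 - P ^ ℓ))
    (hs : (g.map (algebraMap (𝓞 K) K)).Separable)
    (hgal : IsPGroup ℓ (g.map (algebraMap (𝓞 K) K)).Gal)
    {T : Set (HeightOneSpectrum (𝓞 K))} (hT : T.Finite) (hgood : ∀ v, v ∉ T → GoodAt ℓ g (1 : K) v)
    (hLT : LocPow ℓ T (Kl hζ)) (x y : F) (hx : Transcendental K x)
    (hxy : y ^ ℓ = aeval x (g.map (algebraMap (𝓞 K) K)))
    (hF : IntermediateField.adjoin K {x, y} = (⊤ : IntermediateField K F))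
    (N : IntermediateField F Ω) (hN : geomPro ℓ K F Ω ≤ N)
    (s : GalSection K F N (algebraicClosure K Ω)) (hj : ∀ z, ((s.j z : N) : Ω) = (z : Ω))
    (p : Plc K N C) (hpv : s.GivenBy (Kl hζ) p) :
    ((∃ c b : K, ((P.eval c = 0 ∧ b ^ ℓ = e ^ ℓ) ∨ (P.eval c ^ ℓ = 1 ∧ b = 0)) ∧
        p.val (algebraMap F N x) (algebraMap K C c) ∧
        p.val (algebraMap F N y) (algebraMap K C b)) ∨ p.val (algebraMap F N x)⁻¹ 0) ∧
      ∀ σ, ∀ z : N, (z : Ω) ∈ geomPro ℓ K F Ω → (s.s σ z ∈ p.W ↔ z ∈ p.W) := by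
  classical
  have hℓ := hp.out
  have hac : IsAlgClosure K (algebraicClosure K Ω) := inferInstance
  have hkb : IsAlgClosed (algebraicClosure K Ω) := hac.1
  have hnorm : Normal K (algebraicClosure K Ω) := IsAlgClosure.normal K _
  haveI : IsGalois K (algebraicClosure K Ω) := IsGalois.mk
  haveI hL0 : CharZero (Kl hζ) :=
    charZero_of_injective_algebraMap (algebraMap K (Kl hζ)).injective
  have hinj : Function.Injective (algebraMap (𝓞 K) K) := IsFractionRing.injective (𝓞 K) K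
  have hℓ3 : 3 ≤ ℓ := by
    have h1 := hℓ.two_le
    have h2 : ℓ ≠ 2 := by
      rintro rfl
      exact absurd hodd (by decide)
    omega
  -- roots of unity
  have hmu : ∀ ε : C, ε ^ ℓ = 1 → ∃ ε' : K, ε' ^ ℓ = 1 ∧ algebraMap K C ε' = ε := by
    intro ε hε
    haveI : NeZero ℓ := ⟨hℓ.ne_zero⟩
    have h1 : IsPrimitiveRoot (algebraMap K C ζ) ℓ := hζ.map_of_injective (algebraMap K C).injective
    obtain ⟨i, -, hi⟩ := h1.eq_pow_of_pow_eq_one hε
    refine ⟨ζ ^ i, ?_, by rw [map_pow, hi]⟩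
    rw [← pow_mul, mul_comm, pow_mul, hζ.pow_eq_one, one_pow]
  -- the degree
  obtain ⟨f, hf⟩ : ∃ f : K[X], f = g.map (algebraMap (𝓞 K) K) := ⟨_, rfl⟩
  have hdeg : g.natDegree = f.natDegree := by rw [hf, natDegree_map_eq_of_injective hinj]
  have hP4 : (1 - P ^ ℓ).natDegree = ℓ * P.natDegree := by
    have h : (1 - P ^ ℓ : K[X]) = -(P ^ ℓ - Polynomial.C 1) := by rw [C_1]; ring
    rw [h, natDegree_neg, natDegree_sub_C, natDegree_pow]
  have hfdeg : f.natDegree = ℓ * P.natDegree := by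
    rw [hf, hg, natDegree_C_mul (pow_ne_zero _ he), hP4]
  have hgm : g.natDegree = ℓ * P.natDegree := by rw [hdeg, hfdeg]
  have hP1 : 1 ≤ P.natDegree := Nat.one_le_iff_ne_zero.2 hP
  have h3 : 3 ≤ g.natDegree := by rw [hgm]; nlinarith
  have hf0 : f ≠ 0 := by
    rintro h0
    rw [h0, natDegree_zero] at hdeg
    omega
  -- the functions
  have heF : algebraMap K F e ≠ 0 := (_root_.map_ne_zero _).2 he
  have hfx : aeval x f = algebraMap K F e ^ ℓ * (1 - aeval x P ^ ℓ) := by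
    rw [hf, hg, map_mul, aeval_C, map_sub, map_pow, map_pow, map_one]
  have hY : aeval x P ^ ℓ + (y / algebraMap K F e) ^ ℓ = 1 := by
    rw [div_pow, hxy, ← hf, hfx, mul_div_cancel_left₀ _ (pow_ne_zero _ heF)]
    ring
  have hxy1 : algebraMap K F 1 * y ^ ℓ = aeval x f := by rw [map_one, one_mul, hxy, hf]
  have hgen := ferGen (C := C) hζ hodd hcop hKL f (by rw [hf]; exact hs)
    (by rw [hfdeg]; exact dvd_mul_right _ _) (by rw [← hdeg]; exact h3) 1
    one_ne_zero x y hx hxy1 hF P hP (y / algebraMap K F e) hY N hN s p hpv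
  haveI : IsScalarTower K F N := inferInstance
  have hKN : ∀ c : K, algebraMap F N (algebraMap K F c) = algebraMap K N c := fun c =>
    (IsScalarTower.algebraMap_apply K F N c).symm
  obtain ⟨xN, hxN⟩ : ∃ xN : N, xN = algebraMap F N x := ⟨_, rfl⟩
  obtain ⟨yN, hyN⟩ : ∃ yN : N, yN = algebraMap F N y := ⟨_, rfl⟩
  obtain ⟨XN, hXN⟩ : ∃ XN : N, XN = algebraMap F N (aeval x P) := ⟨_, rfl⟩
  have hXx : XN = aeval xN P := by
    rw [hXN, hxN]
    exact (aeval_algebraMap_apply N x P).symm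
  have hyXN : yN ^ ℓ = algebraMap K N e ^ ℓ * (1 - XN ^ ℓ) := by
    have h1 := congrArg (algebraMap F N) hfx
    rw [← hxy1, map_one, one_mul, map_pow, map_mul, map_pow, map_sub, map_pow, map_one, hKN] at h1
    rw [hyN, hXN]
    exact h1
  rw [← hXN, map_div₀, ← hyN, hKN] at hgen
  rw [← hxN, ← hyN]
  have hx0 : xN ≠ 0 := by
    rw [hxN]
    intro h
    rw [map_eq_zero] at h
    rw [h] at hx
    exact hx isAlgebraic_zero
  have heN : algebraMap K N e ≠ 0 := (_root_.map_ne_zero _).2 he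
  have hlc : algebraMap K C P.leadingCoeff ≠ 0 := by
    refine (_root_.map_ne_zero _).2 (leadingCoeff_ne_zero.2 ?_)
    rintro rfl
    exact hP natDegree_zero
  have hcompat : ∀ σ (c : algebraicClosure K Ω) (z : N), (z : Ω) = (c : Ω) →
      (s.s σ z : Ω) = (σ c : Ω) := by
    intro σ c z hz
    have h1 : z = s.j c := Subtype.ext (hz.trans (hj c).symm)
    rw [h1, s.sec, hj]
  have hdec : ∀ σ, DecL (Kl hζ) (p.iot s.j) σ → ∀ z : N, (z : Ω) ∈ geomPro ℓ K F Ω →
      (s.s σ z ∈ p.W ↔ z ∈ p.W) := fun σ hσ z _ => given_mem hpv hσ z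
  obtain ⟨-, hnum⟩ := numBoth (L := Kl hζ) hζ g (1 : K) one_ne_zero h3 hgm hs hgal hT hgood hLT
    (p.iot s.j) x y hx (by rw [← hf]; exact hxy1) hF N hN s.s s.cont hcompat
  have hnum' := hnum p.W (fun c => by rw [hKN]; exact p.alg_mem c)
  simp only [map_sub, hKN, ← hxN, ← hyN, map_inv₀, map_div₀, map_pow] at hnum'
  -- poles of `x`
  have hpole : p.val xN⁻¹ 0 → p.val XN⁻¹ 0 := by
    intro h
    have h1 := (val_pole hx0 h P).inv hlc
    have h2 := h1.mul (h.pow P.natDegree)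
    rw [zero_pow hP, mul_zero] at h2
    have h3 : (aeval xN P / xN ^ P.natDegree)⁻¹ * xN⁻¹ ^ P.natDegree = XN⁻¹ := by
      rw [inv_div, inv_pow, ← hXx, div_mul_eq_mul_div, mul_inv_cancel₀ (pow_ne_zero _ hx0),
        one_div]
    rwa [h3] at h2
  have hX0 : XN ≠ 0 := by
    intro h
    rw [hXN, map_eq_zero] at h
    have h2 := (transcendental_aeval_iff (f := P)).2 ⟨hx, transcendental P hP
      (mem_nonZeroDivisors_of_ne_zero (leadingCoeff_ne_zero.2 (by
        rintro rfl; exact hP natDegree_zero)))⟩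
    rw [h] at h2
    exact h2 isAlgebraic_zero
  -- finite points
  have hfin0 : ∀ η : C, p.val XN η → ∃ ξ υ : C, p.val xN ξ ∧ p.val yN υ ∧ aeval ξ P = η ∧
      υ ^ ℓ = algebraMap K C e ^ ℓ * (1 - η ^ ℓ) := by
    intro η hη
    have hxW : xN ∈ p.W := by
      by_contra h
      exact Plc.notMem_of_val_inv hX0 (hpole (Plc.val_inv_of_notMem h)) hη.mem
    have hyW : yN ∈ p.W := by
      apply Plc.mem_of_pow_mem (n := ℓ) hℓ.pos
      rw [hyXN]
      exact mul_mem (pow_mem (p.alg_mem e) _) (sub_mem (one_mem _) (pow_mem hη.mem _))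
    obtain ⟨ξ, hξ⟩ := Plc.val_of_mem hxW
    obtain ⟨υ, hυ⟩ := Plc.val_of_mem hyW
    refine ⟨ξ, υ, hξ, hυ, ?_, ?_⟩
    · have h1 := Plc.val_aeval hξ P
      rw [← hXx] at h1
      exact h1.unique hη
    · have h1 := hυ.pow ℓ
      rw [hyXN] at h1
      exact h1.unique (((Plc.val_alg (pl := p) e).pow ℓ).mul ((Plc.val_one).sub (hη.pow ℓ)))
  have hιinj : Function.Injective (p.iot s.j) := (p.iot s.j).toRingHom.injective
  have halgel : ∀ ξ : C, IsAlgebraic K ξ → ∃ θ : algebraicClosure K Ω, p.iot s.j θ = ξ := by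
    intro ξ h1
    letI : Algebra (algebraicClosure K Ω) C := (p.iot s.j : algebraicClosure K Ω →+* C).toAlgebra
    haveI : IsScalarTower K (algebraicClosure K Ω) C :=
      IsScalarTower.of_algebraMap_eq fun c => ((p.iot s.j).commutes c).symm
    have h2 : IsIntegral (algebraicClosure K Ω) ξ := h1.isIntegral.tower_top
    exact minpoly.mem_range_of_degree_eq_one _ ξ
      (IsAlgClosed.degree_eq_one_of_irreducible _ (minpoly.irreducible h2))
  have hθdec : ∀ (ξ : C) (θ : algebraicClosure K Ω), p.val xN ξ → p.iot s.j θ = ξ →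
      ∀ σ, DecL (Kl hζ) (p.iot s.j) σ → σ θ = θ := by
    rintro ξ θ hξ hθ σ ⟨τ, hτ⟩
    apply hιinj
    rw [hτ, hθ]
    have h1 := given_val hpv hτ hξ
    have h2 : s.s σ xN = xN := by
      rw [hxN]
      exact (s.s σ).commutes x
    rw [h2] at h1
    exact h1.unique hξ
  -- the case `P = 0`
  have hcase0 : p.val XN 0 → ∃ c b : K, P.eval c = 0 ∧ b ^ ℓ = e ^ ℓ ∧
      p.val xN (algebraMap K C c) ∧ p.val yN (algebraMap K C b) := by
    intro h
    obtain ⟨ξ, υ, hξ, hυ, hPξ, hυℓ⟩ := hfin0 0 h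
    obtain ⟨θ, hθ⟩ := halgel ξ ⟨P, by rintro rfl; exact hP natDegree_zero, hPξ⟩
    obtain ⟨w, hw⟩ := locfix (L := Kl hζ) (p.iot s.j) (hθdec ξ θ hξ hθ)
    have hwP : aeval w P = 0 := by
      apply (algebraMap (Kl hζ) C).injective
      rw [map_zero, ← aeval_algebraMap_apply, hw, hθ, hPξ]
    obtain ⟨c, hc⟩ := hroot w hwP
    have hcξ : algebraMap K C c = ξ := by
      rw [IsScalarTower.algebraMap_apply K (Kl hζ) C, hc, hw, hθ]
    have heC : algebraMap K C e ≠ 0 := (_root_.map_ne_zero _).2 he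
    obtain ⟨ε, hε1, hε⟩ := hmu (υ / algebraMap K C e) (by
      rw [div_pow, hυℓ, zero_pow hℓ.ne_zero, sub_zero, mul_one, div_self (pow_ne_zero _ heC)])
    refine ⟨c, ε * e, ?_, ?_, by rw [hcξ]; exact hξ, ?_⟩
    · apply (algebraMap K C).injective
      rw [map_zero, ← hPξ, ← hcξ, aeval_algebraMap_apply]
      rfl
    · rw [mul_pow, hε1, one_mul]
    · rw [map_mul, hε, div_mul_cancel₀ _ heC]
      exact hυ
  -- the case `P ^ ℓ = 1`
  have hcase1 : p.val (yN / algebraMap K N e) 0 → ∃ c : K, P.eval c ^ ℓ = 1 ∧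
      p.val xN (algebraMap K C c) ∧ p.val yN 0 := by
    intro h
    have hy0 : p.val yN 0 := by
      have h1 := h.mul (Plc.val_alg (pl := p) e)
      rwa [div_mul_cancel₀ _ heN, zero_mul] at h1
    have hXW : XN ∈ p.W := by
      apply Plc.mem_of_pow_mem (n := ℓ) hℓ.pos
      have h1 : XN ^ ℓ = 1 - (yN / algebraMap K N e) ^ ℓ := by
        rw [div_pow, hyXN, mul_div_cancel_left₀ _ (pow_ne_zero _ heN)]
        ring
      rw [h1]
      exact sub_mem (one_mem _) (pow_mem h.mem _)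
    obtain ⟨η, hη⟩ := Plc.val_of_mem hXW
    obtain ⟨ξ, υ, hξ, hυ, hPξ, hυℓ⟩ := hfin0 η hη
    have hυ0 : υ = 0 := hυ.unique hy0
    have hηℓ : η ^ ℓ = 1 := by
      rw [hυ0, zero_pow hℓ.ne_zero, eq_comm, mul_eq_zero] at hυℓ
      rcases hυℓ with h1 | h1
      · exact absurd h1 (pow_ne_zero _ ((_root_.map_ne_zero _).2 he))
      · exact (sub_eq_zero.1 h1).symm
    have hrootf : aeval ξ f = 0 := by
      rw [hf, hg]
      simp only [map_mul, map_sub, map_pow, map_one]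
      rw [hPξ, hηℓ, sub_self, mul_zero]
    obtain ⟨θ, hθ⟩ := halgel ξ ⟨f, hf0, hrootf⟩
    have hθr : aeval θ f = 0 := by
      apply hιinj
      rw [← aeval_algHom_apply, hθ, hrootf, map_zero]
    -- `θ` is in `K`
    let H : Subgroup (algebraicClosure K Ω ≃ₐ[K] algebraicClosure K Ω) :=
      MulAction.stabilizer _ θ
    have hHm : ∀ σ, σ ∈ H ↔ σ θ = θ := fun σ => Iff.rfl
    have hGen : Gen ℓ H := by
      refine gen_of_locPow hζ (fun v hv => (hgood v hv).1) hLT (p.iot s.j) (fun v hv => ?_)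
        fun σ hσ => (hHm σ).2 (hθdec ξ θ hξ hθ σ hσ)
      obtain ⟨V, hV⟩ := exists_above (K := K) (algebraicClosure K Ω) v
      refine ⟨V, hV, fun σ hσ => ?_⟩
      rw [hHm]
      obtain ⟨-, hlcv, hsv, -⟩ := hgood v hv
      have hσr : aeval (σ θ) f = 0 := by
        have h1 := aeval_algHom_apply (σ : algebraicClosure K Ω →ₐ[K] algebraicClosure K Ω) θ f
        rw [hθr, map_zero] at h1
        exact h1
      have hG := good_of (κ := algebraicClosure K Ω) g hlcv hsv hV (B := {θ, σ θ}) (by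
        intro e he
        rw [Finset.mem_insert, Finset.mem_singleton] at he
        rw [← hf]
        rcases he with rfl | rfl
        · exact hθr
        · exact hσr)
      by_contra hne
      have h1 := hG.2 (σ θ) (by simp) θ (by simp) hne
      exact h1.not_nonunit (hσ.2 θ (hG.1 θ (by simp)))
    obtain ⟨E, hE1, hE2, hE3, hE4⟩ := exists_spl (κ := algebraicClosure K Ω) f
      (by rw [hf]; exact hgal)
    haveI := hE1
    haveI := hE2
    have hfixall : ∀ σ : algebraicClosure K Ω ≃ₐ[K] algebraicClosure K Ω, σ θ = θ := fun σ =>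
      Gen.fix hGen hζ hnorm E hE3 (hE4 θ hf0 hθr) (fun τ hτ => (hHm τ).1 hτ) σ
    obtain ⟨c, hc⟩ : ∃ c : K, algebraMap K (algebraicClosure K Ω) c = θ := by
      have h1 : θ ∈ (⊥ : IntermediateField K (algebraicClosure K Ω)) := by
        rw [InfiniteGalois.mem_bot_iff_fixed]
        exact hfixall
      exact IntermediateField.mem_bot.1 h1
    have hcξ : algebraMap K C c = ξ := by rw [← hθ, ← hc, (p.iot s.j).commutes]
    refine ⟨c, ?_, by rw [hcξ]; exact hξ, hy0⟩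
    apply (algebraMap K C).injective
    rw [map_one, map_pow, ← hηℓ, ← hPξ, ← hcξ, aeval_algebraMap_apply]
    rfl
  have hcaseFin : ∀ c b : K, p.val xN (algebraMap K C c) → p.val yN (algebraMap K C b) →
      ∀ σ, ∀ z : N, (z : Ω) ∈ geomPro ℓ K F Ω → (s.s σ z ∈ p.W ↔ z ∈ p.W) := by
    intro c b hc1 hc2
    refine hnum' (Or.inl ⟨c, b, ?_, ?_⟩) hdec
    · apply val_zero_non
      have h1 := hc1.sub (Plc.val_alg (pl := p) c)
      rwa [sub_self] at h1
    · apply val_zero_non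
      have h1 := hc2.sub (Plc.val_alg (pl := p) b)
      rwa [sub_self] at h1
  rcases hgen with h | h | h
  · obtain ⟨c, b, hc, hb, hc1, hc2⟩ := hcase0 h
    exact ⟨Or.inl ⟨c, b, Or.inl ⟨hc, hb⟩, hc1, hc2⟩, hcaseFin c b hc1 hc2⟩
  · obtain ⟨c, hc, hc1, hc2⟩ := hcase1 h
    have hc2' : p.val yN (algebraMap K C 0) := by rw [map_zero]; exact hc2
    exact ⟨Or.inl ⟨c, 0, Or.inr ⟨hc, rfl⟩, hc1, hc2'⟩, hcaseFin c 0 hc1 hc2'⟩
  · have hxp : p.val xN⁻¹ 0 := by
      apply Plc.val_inv_of_notMem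
      intro hxW
      obtain ⟨ξ, hξ⟩ := Plc.val_of_mem hxW
      have h1 := (Plc.val_aeval hξ P).mem
      rw [← hXx] at h1
      exact Plc.notMem_of_val_inv hX0 h h1
    refine ⟨Or.inr hxp, ?_⟩
    -- the value of `y / x ^ n`
    obtain ⟨q, hq⟩ : ∃ q : N, q = yN / (algebraMap K N e * XN) := ⟨_, rfl⟩
    have hqℓ : q ^ ℓ = XN⁻¹ ^ ℓ - 1 := by
      rw [hq, div_pow, mul_pow, hyXN, mul_div_mul_left _ _ (pow_ne_zero _ heN), sub_div, inv_pow,
        div_self (pow_ne_zero _ hX0), one_div]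
    have hqW : q ∈ p.W := by
      apply Plc.mem_of_pow_mem (n := ℓ) hℓ.pos
      rw [hqℓ]
      exact sub_mem (pow_mem h.mem _) (one_mem _)
    obtain ⟨ε, hε⟩ := Plc.val_of_mem hqW
    have hεℓ : ε ^ ℓ = -1 := by
      have h1 := hε.pow ℓ
      rw [hqℓ] at h1
      have h2 := (h.pow ℓ).sub (Plc.val_one (pl := p))
      rw [zero_pow hℓ.ne_zero, zero_sub] at h2
      exact h1.unique h2
    obtain ⟨ε₁, hε₁, hε₁'⟩ := hmu (-ε) (by rw [hodd.neg_pow, hεℓ, neg_neg])
    have hε' : algebraMap K C (-ε₁) = ε := by rw [map_neg, hε₁', neg_neg]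
    refine hnum' (Or.inr ⟨val_zero_non hxp, e * (-ε₁) * P.leadingCoeff, ?_⟩) hdec
    apply val_zero_non
    have h1 := ((Plc.val_alg (pl := p) e).mul hε).mul (val_pole hx0 hxp P)
    have h2 : algebraMap K N e * q * (aeval xN P / xN ^ P.natDegree) =
        yN / xN ^ P.natDegree := by
      rw [hq, ← hXx]
      field_simp
    rw [h2] at h1
    have h4 := h1.sub (Plc.val_alg (pl := p) (e * (-ε₁) * P.leadingCoeff))
    rw [map_mul (algebraMap K C), map_mul (algebraMap K C), hε', sub_self] at h4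
    exact h4

end fin

end Pool.Agent.Helper786_Fpb
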